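import Mathlib

/-!
# MP_3155f9_ag : contact classes in a two-parameter ICIS family in characteristic 2

`F` is a field of characteristic `2` (algebraically closed in the problem; this is not needed)
and `R = F[[x,y]]`, modelled by `MvPowerSeries (Fin 2) F` with `x = X 0`, `y = X 1`.

We show that all members of the family
`f_{a,b} = (x^3 + y^5 + a y^6 + b y^8, x^2 y + x y^2)` are contact equivalent to one another,
so that the question Q1 has a negative answer.  More generally for every `r ≥ 4` the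
members of the family `(x^3 + y^r + y^(r+1) h, x^2 y + x y^2)`, `h ∈ R` arbitrary, are all
contact equivalent.
-/

namespace Pool.Agent.Results.MP_3155f9_ag.ContactTrivial

open MvPowerSeries

/-- Contact equivalence of pairs `f, g ∈ R^2`, `R = F[[x,y]]`: `g = U · φ(f)` for some
`U ∈ GL(2,R)` and some `F`-algebra automorphism `φ` of `R`. -/
def ContactEquiv {F : Type*} [Field F] (f g : Fin 2 → MvPowerSeries (Fin 2) F) : Prop :=
  ∃ (U : GL (Fin 2) (MvPowerSeries (Fin 2) F))
    (φ : MvPowerSeries (Fin 2) F ≃ₐ[F] MvPowerSeries (Fin 2) F),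
    g = (U : Matrix (Fin 2) (Fin 2) (MvPowerSeries (Fin 2) F)).mulVec (fun i => φ (f i))

/-- The pair `f_{a,b} = (x^3 + y^5 + a y^6 + b y^8, x^2 y + x y^2)`. -/
noncomputable def fab {F : Type*} [Field F] (a b : F) : Fin 2 → MvPowerSeries (Fin 2) F :=
  ![X 0 ^ 3 + X 1 ^ 5 + C a * X 1 ^ 6 + C b * X 1 ^ 8, X 0 ^ 2 * X 1 + X 0 * X 1 ^ 2]

/-- The pair `(x^3 + y^r + y^(r+1) h, x^2 y + x y^2)` for `h ∈ R`. -/
noncomputable def fam {F : Type*} [Field F] (r : ℕ) (h : MvPowerSeries (Fin 2) F) :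
    Fin 2 → MvPowerSeries (Fin 2) F :=
  ![X 0 ^ 3 + X 1 ^ r + X 1 ^ (r + 1) * h, X 0 ^ 2 * X 1 + X 0 * X 1 ^ 2]

/-- Zariski-open subsets of `F^4`: complements of zero loci of sets of polynomials. -/
def IsZariskiOpen {F : Type*} [Field F] (U : Set (Fin 4 → F)) : Prop :=
  ∃ S : Set (MvPolynomial (Fin 4) F), U = {p | ∃ P ∈ S, MvPolynomial.eval p P ≠ 0}

/-- The assertion Q1: there is a nonempty Zariski-open subset of `F^4` such that
`f_{a,b}` is not contact equivalent to `f_{c,d}` for all `(a,b,c,d)` in it. -/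
def Q1 (F : Type*) [Field F] : Prop :=
  ∃ U : Set (Fin 4 → F), U.Nonempty ∧ IsZariskiOpen U ∧
    ∀ p ∈ U, ¬ ContactEquiv (fab (p 0) (p 1)) (fab (p 2) (p 3))

section aux

variable {F : Type*} [Field F]

lemma exists_coeff (f : (Fin 2 →₀ ℕ) → F) :
    ∃ A : MvPowerSeries (Fin 2) F, ∀ e, coeff e A = f e := ⟨f, fun _ => rfl⟩

/-- Every power series without constant term lies in the ideal `(x,y)`. -/
lemma exists_decomp (z : MvPowerSeries (Fin 2) F) (hz : constantCoeff z = 0) :
    ∃ A B : MvPowerSeries (Fin 2) F, z = X 0 * A + X 1 * B := by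
  classical
  obtain ⟨A, hA⟩ := exists_coeff (fun e => coeff (e + Finsupp.single 0 1) z)
  obtain ⟨B, hB⟩ := exists_coeff
    (fun e => if e 0 = 0 then coeff (e + Finsupp.single 1 1) z else 0)
  refine ⟨A, B, ?_⟩
  ext e
  rw [map_add]
  rw [X, X, coeff_monomial_mul, coeff_monomial_mul]
  simp only [hA, hB]
  by_cases h0 : e 0 = 0
  · have h0' : ¬ (Finsupp.single 0 1 ≤ e) := by
      intro h
      have := h 0
      simp [h0] at this
    rw [if_neg h0']
    by_cases h1 : e 1 = 0
    · have h1' : ¬ (Finsupp.single 1 1 ≤ e) := by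
        intro h
        have := h 1
        simp [h1] at this
      rw [if_neg h1']
      have : e = 0 := by
        ext i
        fin_cases i
        · exact h0
        · exact h1
      rw [this]
      simpa using hz
    · have h1' : Finsupp.single 1 1 ≤ e := by
        intro i
        fin_cases i
        · simp
        · simp
          omega
      rw [if_pos h1']
      have h2 : (e - Finsupp.single 1 1 : Fin 2 →₀ ℕ) 0 = 0 := by
        simp [h0]
      rw [if_pos h2, tsub_add_cancel_of_le h1']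
      simp
  · have h0' : Finsupp.single 0 1 ≤ e := by
      intro i
      fin_cases i
      · simp
        omega
      · simp
    rw [if_pos h0']
    have h3 : (e - Finsupp.single 1 1 : Fin 2 →₀ ℕ) 0 ≠ 0 := by
      simpa using h0
    rw [if_neg h3, tsub_add_cancel_of_le h0']
    simp

/-- The images of the variables under the coordinate change
`x ↦ x + t x y + t y^(n+3)`, `y ↦ y`. -/
noncomputable def imgs (t : F) (n : ℕ) : Fin 2 → MvPowerSeries (Fin 2) F :=
  ![X 0 + C t * X 0 * X 1 + C t * X 1 ^ (n + 3), X 1]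

/-- The images of the variables under the inverse coordinate change. -/
noncomputable def imgsInv (t : F) (n : ℕ) : Fin 2 → MvPowerSeries (Fin 2) F :=
  ![(X 0 - C t * X 1 ^ (n + 3)) * (1 + C t * X 1)⁻¹, X 1]

lemma hasSubst_imgs (t : F) (n : ℕ) : HasSubst (imgs t n) := by
  apply hasSubst_of_constantCoeff_zero
  intro s
  fin_cases s <;> simp [imgs]

lemma hasSubst_imgsInv (t : F) (n : ℕ) : HasSubst (imgsInv t n) := by
  apply hasSubst_of_constantCoeff_zero
  intro s
  fin_cases s <;> simp [imgsInv]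

lemma cc_s (t : F) : constantCoeff (1 + C t * X 1 : MvPowerSeries (Fin 2) F) ≠ 0 := by
  simp

lemma comp1 (t : F) (n : ℕ) (s : Fin 2) :
    subst (imgsInv t n) (imgs t n s) = (X s : MvPowerSeries (Fin 2) F) := by
  have hI := hasSubst_imgsInv t n
  have h1 : subst (R := F) (imgsInv t n) (X 1 : MvPowerSeries (Fin 2) F) = X 1 := by
    rw [subst_X hI]; rfl
  have h0 : subst (R := F) (imgsInv t n) (X 0 : MvPowerSeries (Fin 2) F) =
      (X 0 - C t * X 1 ^ (n + 3)) * (1 + C t * X 1)⁻¹ := by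
    rw [subst_X hI]; rfl
  fin_cases s
  · show subst (imgsInv t n) (X 0 + C t * X 0 * X 1 + C t * X 1 ^ (n + 3)) = X 0
    simp only [subst_add hI, subst_mul hI, subst_pow hI, subst_C, h1, h0]
    have := MvPowerSeries.mul_inv_cancel _ (cc_s t)
    linear_combination (X 0 - C t * X 1 ^ (n+3)) * this
  · exact h1

lemma comp2 (t : F) (n : ℕ) (s : Fin 2) :
    subst (imgs t n) (imgsInv t n s) = (X s : MvPowerSeries (Fin 2) F) := by
  have hI := hasSubst_imgs t n
  have h1 : subst (R := F) (imgs t n) (X 1 : MvPowerSeries (Fin 2) F) = X 1 := by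
    rw [subst_X hI]; rfl
  have h0 : subst (R := F) (imgs t n) (X 0 : MvPowerSeries (Fin 2) F) =
      X 0 + C t * X 0 * X 1 + C t * X 1 ^ (n + 3) := by
    rw [subst_X hI]; rfl
  have h2 : subst (R := F) (imgs t n) (1 + C t * X 1 : MvPowerSeries (Fin 2) F)⁻¹ =
      (1 + C t * X 1)⁻¹ := by
    rw [eq_comm, MvPowerSeries.inv_eq_iff_mul_eq_one (cc_s t)]
    have h3 : subst (R := F) (imgs t n) (1 + C t * X 1 : MvPowerSeries (Fin 2) F) =
        (1 + C t * X 1) := by
      have : (1 : MvPowerSeries (Fin 2) F) = C 1 := by simp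
      simp only [this, subst_add hI, subst_mul hI, subst_C, h1]
    rw [← h3, ← subst_mul hI, h3, MvPowerSeries.inv_mul_cancel _ (cc_s t)]
    have : (1 : MvPowerSeries (Fin 2) F) = C 1 := by simp
    rw [this, subst_C]
  fin_cases s
  · show subst (imgs t n) ((X 0 - C t * X 1 ^ (n + 3)) * (1 + C t * X 1)⁻¹) = X 0
    simp only [subst_sub hI, subst_mul hI, subst_pow hI, subst_C, h1, h0, h2]
    have := MvPowerSeries.mul_inv_cancel _ (cc_s t)
    linear_combination (X 0) * this
  · exact h1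

/-- The automorphism `x ↦ x + t x y + t y^(n+3)`, `y ↦ y` of `F[[x,y]]`. -/
noncomputable def aut (t : F) (n : ℕ) :
    MvPowerSeries (Fin 2) F ≃ₐ[F] MvPowerSeries (Fin 2) F :=
  AlgEquiv.ofAlgHom (substAlgHom (hasSubst_imgs t n)) (substAlgHom (hasSubst_imgsInv t n))
    (by
      ext1 f
      simp only [AlgHom.comp_apply, substAlgHom_apply, AlgHom.id_apply]
      rw [subst_comp_subst_apply (hasSubst_imgsInv t n) (hasSubst_imgs t n)]
      simp only [comp2, subst_self]
      rfl)
    (by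
      ext1 f
      simp only [AlgHom.comp_apply, substAlgHom_apply, AlgHom.id_apply]
      rw [subst_comp_subst_apply (hasSubst_imgs t n) (hasSubst_imgsInv t n)]
      simp only [comp1, subst_self]
      rfl)

lemma aut_X0 (t : F) (n : ℕ) :
    aut t n (X 0) = X 0 + C t * X 0 * X 1 + C t * X 1 ^ (n + 3) := by
  show substAlgHom (hasSubst_imgs t n) (X 0) = _
  rw [substAlgHom_X]; rfl

lemma aut_X1 (t : F) (n : ℕ) :
    aut t n (X 1) = X 1 := by
  show substAlgHom (hasSubst_imgs t n) (X 1) = _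
  rw [substAlgHom_X]; rfl

lemma aut_cc (t : F) (n : ℕ) (z : MvPowerSeries (Fin 2) F) :
    constantCoeff (aut t n z) = constantCoeff z := by
  have key : ∀ z : MvPowerSeries (Fin 2) F, constantCoeff z = 0 →
      constantCoeff (aut t n z) = 0 := by
    intro z hz
    by_contra h
    have hu : IsUnit (aut t n z) := by
      rw [isUnit_iff_constantCoeff]
      exact isUnit_iff_ne_zero.mpr h
    have hu' : IsUnit z := by
      have := hu.map (aut t n).symm
      simpa using this
    rw [isUnit_iff_constantCoeff] at hu'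
    exact hu'.ne_zero hz
  have h1 := key (z - algebraMap F _ (constantCoeff z)) (by simp [MvPowerSeries.algebraMap_apply])
  rw [map_sub, AlgEquiv.commutes, map_sub, sub_eq_zero] at h1
  rw [h1]
  simp [MvPowerSeries.algebraMap_apply]

/-- `InMI g₁ g₂ z`: the series `z` is a combination of `g₁, g₂` with coefficients in the
maximal ideal. -/
def InMI (g₁ g₂ z : MvPowerSeries (Fin 2) F) : Prop :=
  ∃ a b : MvPowerSeries (Fin 2) F, constantCoeff a = 0 ∧ constantCoeff b = 0 ∧
    z = a * g₁ + b * g₂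

lemma InMI.add {g₁ g₂ z w : MvPowerSeries (Fin 2) F} (hz : InMI g₁ g₂ z) (hw : InMI g₁ g₂ w) :
    InMI g₁ g₂ (z + w) := by
  obtain ⟨a, b, ha, hb, rfl⟩ := hz
  obtain ⟨a', b', ha', hb', rfl⟩ := hw
  exact ⟨a + a', b + b', by simp [ha, ha'], by simp [hb, hb'], by ring⟩

lemma InMI.mul {g₁ g₂ z : MvPowerSeries (Fin 2) F} (hz : InMI g₁ g₂ z)
    (w : MvPowerSeries (Fin 2) F) :
    InMI g₁ g₂ (w * z) := by
  obtain ⟨a, b, ha, hb, rfl⟩ := hz
  exact ⟨w * a, w * b, by simp [ha], by simp [hb], by ring⟩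

/-- If `φ(f)` agrees with `g` modulo the maximal ideal times the ideal generated by `g₁, g₂`
then `f` and `g` are contact equivalent. -/
lemma contactEquiv_of_inMI (f g : Fin 2 → MvPowerSeries (Fin 2) F)
    (φ : MvPowerSeries (Fin 2) F ≃ₐ[F] MvPowerSeries (Fin 2) F)
    (h1 : InMI (g 0) (g 1) (φ (f 0) - g 0)) (h2 : InMI (g 0) (g 1) (φ (f 1) - g 1)) :
    ContactEquiv f g := by
  obtain ⟨a₁, b₁, ha₁, hb₁, e₁⟩ := h1
  obtain ⟨a₂, b₂, ha₂, hb₂, e₂⟩ := h2
  set M : Matrix (Fin 2) (Fin 2) (MvPowerSeries (Fin 2) F) := !![1 + a₁, b₁; a₂, 1 + b₂] with hM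
  have hdet : IsUnit M.det := by
    rw [isUnit_iff_constantCoeff]
    simp [hM, Matrix.det_fin_two, ha₁, hb₁, ha₂, hb₂]
  have hMg : M.mulVec g = fun i => φ (f i) := by
    funext i
    fin_cases i
    · simp [hM, Matrix.mulVec, dotProduct, Fin.sum_univ_two]
      linear_combination -e₁
    · simp [hM, Matrix.mulVec, dotProduct, Fin.sum_univ_two]
      linear_combination -e₂
  refine ⟨(Matrix.nonsingInvUnit M hdet)⁻¹, φ, ?_⟩
  rw [← hMg]
  show g = (M⁻¹).mulVec (M.mulVec g)
  rw [Matrix.mulVec_mulVec, Matrix.nonsing_inv_mul M hdet, Matrix.one_mulVec]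

/-- The main computation. -/
theorem contactEquiv_fam [CharP F 2] (n : ℕ) (h k : MvPowerSeries (Fin 2) F) :
    ContactEquiv (fam (n + 4) h) (fam (n + 4) k) := by
  have h2 : (2 : MvPowerSeries (Fin 2) F) = 0 := by
    have : (2 : F) = 0 := by exact_mod_cast CharP.cast_eq_zero F 2
    have h2' : (2 : MvPowerSeries (Fin 2) F) = algebraMap F _ 2 :=
      (map_ofNat (algebraMap F (MvPowerSeries (Fin 2) F)) 2).symm
    rw [h2', this, map_zero]
  set t : F := constantCoeff h + constantCoeff k with ht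
  apply contactEquiv_of_inMI _ _ (aut t n)
  all_goals
    simp only [fam, Matrix.cons_val_zero, Matrix.cons_val_one, map_add, map_mul, map_pow,
      aut_X0, aut_X1]
  all_goals
    have hz : constantCoeff (C t + aut t n h + k : MvPowerSeries (Fin 2) F) = 0 := by
      have : (2 : F) = 0 := by exact_mod_cast CharP.cast_eq_zero F 2
      simp only [map_add, aut_cc, constantCoeff_C]
      linear_combination (constantCoeff h + constantCoeff k) * this
    obtain ⟨A, B, hAB⟩ := exists_decomp _ hz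
    generalize aut t n h = H at *
    generalize hx : (X 0 : MvPowerSeries (Fin 2) F) = x at *
    generalize hy : (X 1 : MvPowerSeries (Fin 2) F) = y at *
    have cx : constantCoeff x = 0 := by rw [← hx]; simp
    have cy : constantCoeff y = 0 := by rw [← hy]; simp
    generalize hT : (C t : MvPowerSeries (Fin 2) F) = T at *
    have e4 : y ^ (n + 4) = y ^ n * y ^ 4 := by ring
    have e5 : y ^ (n + 4 + 1) = y ^ n * y ^ 5 := by ring
    have e3 : y ^ (n + 3) = y ^ n * y ^ 3 := by ring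
    rw [e4, e5, e3]
    generalize y ^ n = p at *
    set g₁ := x ^ 3 + p * y ^ 4 + p * y ^ 5 * k with hg₁
    set g₂ := x ^ 2 * y + x * y ^ 2 with hg₂
    -- the units
    obtain ⟨w, hw⟩ : ∃ w, (1 + p * y * (1 + y * k)) * w = 1 :=
      ⟨(1 + p * y * (1 + y * k))⁻¹, MvPowerSeries.mul_inv_cancel _ (by simp [cy])⟩
    obtain ⟨v, hv⟩ : ∃ v, (1 + y * k) * v = 1 :=
      ⟨(1 + y * k)⁻¹, MvPowerSeries.mul_inv_cancel _ (by simp [cy])⟩
    have G1 : ∀ c, constantCoeff c = 0 → InMI g₁ g₂ (c * g₁) := fun c hc =>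
      ⟨c, 0, hc, by simp, by ring⟩
    have G2 : ∀ c, constantCoeff c = 0 → InMI g₁ g₂ (c * g₂) := fun c hc =>
      ⟨0, c, by simp, hc, by ring⟩
    have I1 : InMI g₁ g₂ (x * y ^ 4) := by
      refine ⟨w * (x * y), w * (x ^ 2 + x * y + y ^ 2), by simp [cx], by simp [cx, cy], ?_⟩
      rw [hg₁, hg₂]
      linear_combination (-(x * y ^ 4)) * hw - w * (x^4*y + x^3*y^2 + x^2*y^3) * h2
    have I2 : InMI g₁ g₂ (p * y ^ 6) := by
      have := ((((G1 (y ^ 2) (by simp [cy])).add (G2 (x * y + y ^ 2) (by simp [cx, cy]))).add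
        I1).mul v)
      convert this using 1
      rw [hg₁, hg₂]
      linear_combination (-(p * y ^ 6)) * hv - v * (x^3*y^2 + x^2*y^3 + x * y ^ 4) * h2
  · -- first component
    have J := ((((((G1 (T * y + T^2 * y^2 + T^3*y^3) (by simp [cy])).add
      (I2.mul (T * k + T^2 * (1 + y * k) + T^3 * y * (1 + y * k)))).add
      (G2 ((1 + T * y)^2 * T * p * y^2) (by simp [cy]))).add
      (I1.mul ((1 + T * y)^2 * T * p + (1 + T * y) * T^2 * p^2 * y^2))).add
      (I2.mul (T^3 * p^2 * y^3))).add (I1.mul (p * y * A))).add (I2.mul B)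
    convert J using 1
    rw [hg₁, hg₂]
    linear_combination (p * y ^ 5) * hAB + (-T * k * p * y ^ 6 - T * p * x * y ^ 4 + T * p * x ^ 2 * y ^ 3 - T * p * y ^ 5 + T *
      x ^ 3 * y - T ^ 2 * k * p * y ^ 7 - 2 * T ^ 2 * p * x * y ^ 5 + 2 * T ^ 2 * p * x ^
      2 * y ^ 4 - T ^ 2 * p * y ^ 6 + T ^ 2 * p ^ 2 * x * y ^ 6 + T ^ 2 * x ^ 3 * y ^ 2 -
      T ^ 3 * k * p * y ^ 8 - T ^ 3 * p * x * y ^ 6 + T ^ 3 * p * x ^ 2 * y ^ 5 - T ^ 3 *
      p * y ^ 7 + T ^ 3 * p ^ 2 * x * y ^ 7 - k * p * y ^ 5) * h2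
  · -- second component
    have J := ((((G2 (T^2 * y^2) (by simp [cy])).add (I1.mul (T^2))).add
      ((G1 (T * y) (by simp [cy])).add (G2 (T * (x + y)) (by simp [cx, cy])))).add
      (I2.mul (T * k))).add (I2.mul (T^2 * p * y))
    convert J using 1
    rw [hg₁, hg₂]
    linear_combination (-T * k * p * y ^ 6 + T * p * x * y ^ 4 - T * x ^ 3 * y + T ^ 2 * p * x * y ^ 5 - T ^
      2 * x * y ^ 4) * h2

end aux

/-- **Main result.** For every field `F` of characteristic `2` (in particular for `F`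
algebraically closed) the assertion Q1 is false: in fact any two members of the family
`f_{a,b}` are contact equivalent.  More generally for all `r ≥ 4` and all `h, k ∈ F[[x,y]]`
the pairs `(x^3 + y^r + y^(r+1) h, x^2 y + x y^2)` and
`(x^3 + y^r + y^(r+1) k, x^2 y + x y^2)` are contact equivalent. -/
theorem result (F : Type*) [Field F] [CharP F 2] :
    ¬ Q1 F ∧ (∀ a b c d : F, ContactEquiv (fab a b) (fab c d)) ∧
      ∀ r : ℕ, 4 ≤ r → ∀ h k : MvPowerSeries (Fin 2) F, ContactEquiv (fam r h) (fam r k) := by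
  have h3 : ∀ r : ℕ, 4 ≤ r → ∀ h k : MvPowerSeries (Fin 2) F,
      ContactEquiv (fam r h) (fam r k) := by
    intro r hr h k
    obtain ⟨n, rfl⟩ := Nat.exists_eq_add_of_le' hr
    exact contactEquiv_fam n h k
  have h2 : ∀ a b c d : F, ContactEquiv (fab a b) (fab c d) := by
    intro a b c d
    have := h3 5 (by norm_num) (C a + C b * X 1 ^ 2) (C c + C d * X 1 ^ 2)
    have e : ∀ a b : F, fam 5 (C a + C b * X 1 ^ 2) = fab a b := by
      intro a b
      unfold fam fab
      congr 1
      ring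
    rwa [e, e] at this
  refine ⟨?_, h2, h3⟩
  rintro ⟨U, ⟨p, hp⟩, -, hU⟩
  exact hU p hp (h2 _ _ _ _)

end Pool.Agent.Results.MP_3155f9_ag.ContactTrivial
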